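import Mathlib
import Pool.Agent.Helper202.Univ

/-!
# Project UD of helper16, job ADD (helper57), part 1: Cauchy integrals over conformal circles

`P n χ r z` is the Cauchy integral of `n` over the curve `χ (|ζ| = r)`.
-/

set_option autoImplicit false
open Set Filter Topology Metric Complex MeasureTheory

namespace Pool.Agent.J4H57.UD

/-- an open annulus with outer radius one -/
def An (κ : ℝ) : Set ℂ := {ζ | κ < ‖ζ‖ ∧ ‖ζ‖ < 1}

theorem isOpen_An (κ : ℝ) : IsOpen (An κ) :=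
  (isOpen_lt continuous_const continuous_norm).inter (isOpen_lt continuous_norm continuous_const)

theorem An_sub (κ : ℝ) : An κ ⊆ ball 0 1 := fun ζ h => by
  rw [mem_ball_zero_iff]; exact h.2

theorem sphere_sub {κ r : ℝ} (h : κ < r) (h1 : r < 1) : sphere (0 : ℂ) r ⊆ An κ := fun ζ hζ => by
  rw [mem_sphere_zero_iff_norm] at hζ
  exact ⟨by rw [hζ]; exact h, by rw [hζ]; exact h1⟩

/-- independence of the radius -/
theorem ann_eq {f : ℂ → ℂ} {κ r R : ℝ} (h0 : 0 ≤ κ) (hr : κ < r) (hR : κ < R) (h1 : r < 1) (h2 : R < 1)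
    (hf : DifferentiableOn ℂ f (An κ)) : (∮ z in C(0, R), f z) = ∮ z in C(0, r), f z := by
  have key : ∀ r R : ℝ, κ < r → r ≤ R → R < 1 → (∮ z in C(0, R), f z) = ∮ z in C(0, r), f z := by
    intro r R hr hle h2
    apply circleIntegral_eq_of_differentiable_on_annulus_off_countable (h0.trans_lt hr) hle countable_empty
    · apply hf.continuousOn.mono
      rintro z ⟨ha, hb⟩
      rw [mem_closedBall_zero_iff] at ha
      rw [mem_ball_zero_iff, not_lt] at hb
      exact ⟨hr.trans_le hb, ha.trans_lt h2⟩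
    · rintro z ⟨⟨ha, hb⟩, -⟩
      rw [mem_ball_zero_iff] at ha
      rw [mem_closedBall_zero_iff, not_le] at hb
      exact hf.differentiableAt ((isOpen_An κ).mem_nhds ⟨hr.trans hb, ha.trans h2⟩)
  rcases le_total r R with h | h
  · exact key r R hr h h2
  · exact (key R r hR h h1).symm

/-- a Cauchy integral depends differentiably on the parameter -/
theorem diff_int {g h : ℝ → ℂ} (hg : Continuous g) (hh : Continuous h) {a b : ℝ} {z₀ : ℂ}
    (hz : ∀ θ ∈ uIcc a b, h θ ≠ z₀) :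
    DifferentiableAt ℂ (fun z => ∫ θ in a..b, g θ * (z - h θ)⁻¹) z₀ := by
  have hc : IsCompact (h '' uIcc a b) := isCompact_uIcc.image hh
  have hne : (h '' uIcc a b).Nonempty := ⟨_, mem_image_of_mem h left_mem_uIcc⟩
  have hz' : z₀ ∉ h '' uIcc a b := by
    rintro ⟨θ, hθ, e⟩
    exact hz θ hθ e
  have hpos : 0 < infDist z₀ (h '' uIcc a b) := (hc.isClosed.notMem_iff_infDist_pos hne).1 hz'
  set d := infDist z₀ (h '' uIcc a b) with hd
  have hfar : ∀ z ∈ ball z₀ (d / 2), ∀ θ ∈ uIcc a b, d / 2 < ‖z - h θ‖ := by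
    intro z hz θ hθ
    have h1 : d ≤ dist z₀ (h θ) := infDist_le_dist_of_mem (mem_image_of_mem h hθ)
    have h2 : dist z₀ (h θ) ≤ dist z z₀ + dist z (h θ) := by
      rw [dist_comm z z₀]; exact dist_triangle _ _ _
    rw [mem_ball] at hz
    rw [← dist_eq_norm]
    linarith
  obtain ⟨M, hM⟩ := (isCompact_uIcc (a := a) (b := b)).exists_bound_of_continuousOn hg.continuousOn
  have hM0 : 0 ≤ M := (norm_nonneg _).trans (hM a left_mem_uIcc)
  have h1 := intervalIntegral.hasDerivAt_integral_of_dominated_loc_of_deriv_le (μ := volume)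
    (F := fun z θ => g θ * (z - h θ)⁻¹) (F' := fun z θ => g θ * (-1 / (z - h θ) ^ 2)) (x₀ := z₀)
    (s := ball z₀ (d / 2)) (a := a) (b := b) (bound := fun _ => M * (1 / (d / 2) ^ 2))
    (ball_mem_nhds z₀ (by positivity)) ?_ ?_ ?_ ?_ ?_ ?_
  · exact h1.2.differentiableAt
  · refine Eventually.of_forall fun z => ?_
    exact (hg.measurable.mul ((measurable_const.sub hh.measurable).inv)).aestronglyMeasurable
  · apply ContinuousOn.intervalIntegrable
    apply hg.continuousOn.mul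
    apply (continuousOn_const.sub hh.continuousOn).inv₀
    intro θ hθ e
    exact hz θ hθ (sub_eq_zero.1 e).symm
  · exact (hg.measurable.mul (measurable_const.div
      ((measurable_const.sub hh.measurable).pow_const 2))).aestronglyMeasurable
  · refine Eventually.of_forall fun θ hθ z hzb => ?_
    have h2 := hfar z hzb θ (uIoc_subset_uIcc hθ)
    rw [norm_mul, norm_div, norm_neg, norm_one, norm_pow]
    have h3 : 0 < d / 2 := by positivity
    gcongr
    exact hM θ (uIoc_subset_uIcc hθ)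
  · exact intervalIntegrable_const
  · refine Eventually.of_forall fun θ hθ z hzb => ?_
    have h2 := hfar z hzb θ (uIoc_subset_uIcc hθ)
    have h3 : z - h θ ≠ 0 := by
      intro e
      rw [e, norm_zero] at h2
      have : 0 < d / 2 := by positivity
      linarith
    exact (((hasDerivAt_id z).sub_const (h θ)).inv h3).const_mul (g θ)

/-- the Cauchy integral of `n` over the curve `χ (|ζ| = r)` -/
noncomputable def P (n χ : ℂ → ℂ) (r : ℝ) (z : ℂ) : ℂ := ∮ ζ in C(0, r), n ζ * (z - χ ζ)⁻¹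

theorem circ_cont {f : ℂ → ℂ} {r : ℝ} (hr : 0 < r) (hf : ContinuousOn f (sphere 0 r)) :
    Continuous fun θ : ℝ => f (circleMap 0 r θ) :=
  hf.comp_continuous (continuous_circleMap 0 r) fun θ => circleMap_mem_sphere 0 hr.le θ

theorem P_diff {n χ : ℂ → ℂ} {r : ℝ} (hr : 0 < r) (hn : ContinuousOn n (sphere 0 r))
    (hχ : ContinuousOn χ (sphere 0 r)) {z₀ : ℂ} (hz : ∀ ζ : ℂ, ‖ζ‖ = r → χ ζ ≠ z₀) :
    DifferentiableAt ℂ (P n χ r) z₀ := by
  have h1 : P n χ r = fun z => ∫ θ in (0 : ℝ)..2 * Real.pi,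
      (deriv (circleMap 0 r) θ * n (circleMap 0 r θ)) * (z - χ (circleMap 0 r θ))⁻¹ := by
    funext z
    unfold P circleIntegral
    congr 1
    funext θ
    rw [smul_eq_mul]
    ring
  rw [h1]
  apply diff_int
  · apply Continuous.mul _ (circ_cont hr hn)
    have : deriv (circleMap 0 r) = fun θ => circleMap 0 r θ * I := by
      funext θ; rw [deriv_circleMap]
    rw [this]
    exact (continuous_circleMap 0 r).mul continuous_const
  · exact circ_cont hr hχ
  · intro θ _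
    apply hz
    have := circleMap_mem_sphere (0 : ℂ) hr.le θ
    rwa [mem_sphere_zero_iff_norm] at this

/-- the points of the curve removed, the Cauchy integral does not depend on the radius -/
theorem P_eq {n χ : ℂ → ℂ} {κ r R : ℝ} (h0 : 0 ≤ κ) (hr : κ < r) (hR : κ < R) (h1 : r < 1) (h2 : R < 1)
    (hn : DifferentiableOn ℂ n (An κ)) (hχ : DifferentiableOn ℂ χ (ball 0 1)) {z : ℂ}
    (hz : ∀ ζ : ℂ, κ < ‖ζ‖ → ‖ζ‖ < 1 → χ ζ ≠ z) : P n χ R z = P n χ r z := by
  apply ann_eq h0 hr hR h1 h2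
  apply hn.mul
  apply DifferentiableOn.inv
  · exact (differentiableOn_const _).sub (hχ.mono (An_sub κ))
  · intro ζ hζ e
    exact hz ζ hζ.1 hζ.2 (sub_eq_zero.1 e).symm

/-- the Cauchy integral outside -/
theorem P_eq' {n χ : ℂ → ℂ} {κ r R : ℝ} (h0 : 0 ≤ κ) (hr : κ < r) (hle : r ≤ R) (h2 : R < 1)
    (hn : DifferentiableOn ℂ n (An κ)) (hχ : DifferentiableOn ℂ χ (ball 0 1)) {z : ℂ}
    (hz : ∀ ζ : ℂ, r ≤ ‖ζ‖ → ‖ζ‖ ≤ R → χ ζ ≠ z) : P n χ R z = P n χ r z := by
  apply circleIntegral_eq_of_differentiable_on_annulus_off_countable (h0.trans_lt hr) hle countable_empty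
  · rintro ζ ⟨ha, hb⟩
    rw [mem_closedBall_zero_iff] at ha
    rw [mem_ball_zero_iff, not_lt] at hb
    have hA : ζ ∈ An κ := ⟨hr.trans_le hb, ha.trans_lt h2⟩
    apply ContinuousAt.continuousWithinAt
    apply (hn.differentiableAt ((isOpen_An κ).mem_nhds hA)).continuousAt.mul
    apply ContinuousAt.inv₀
    · exact continuousAt_const.sub (hχ.differentiableAt (isOpen_ball.mem_nhds (An_sub κ hA))).continuousAt
    · exact fun e => hz ζ hb ha (sub_eq_zero.1 e).symm
  · rintro ζ ⟨⟨ha, hb⟩, -⟩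
    rw [mem_ball_zero_iff] at ha
    rw [mem_closedBall_zero_iff, not_le] at hb
    have hA : ζ ∈ An κ := ⟨hr.trans hb, ha.trans h2⟩
    apply (hn.differentiableAt ((isOpen_An κ).mem_nhds hA)).mul
    apply DifferentiableAt.inv
    · exact (differentiableAt_const _).sub (hχ.differentiableAt (isOpen_ball.mem_nhds (An_sub κ hA)))
    · exact fun e => hz ζ hb.le ha.le (sub_eq_zero.1 e).symm

/-- the jump of the Cauchy integral -/
theorem P_jump {n χ : ℂ → ℂ} {κ r R : ℝ} (h0 : 0 ≤ κ) (hr : κ < r) (h2 : R < 1)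
    (hn : DifferentiableOn ℂ n (An κ)) (hχ : DifferentiableOn ℂ χ (ball 0 1))
    (hi : InjOn χ (ball 0 1)) {ζ₀ : ℂ} (ha : r < ‖ζ₀‖) (hb : ‖ζ₀‖ < R) :
    P n χ r (χ ζ₀) = P n χ R (χ ζ₀) + 2 * Real.pi * I * (n ζ₀ / deriv χ ζ₀) := by
  have hr0 : 0 < r := h0.trans_lt hr
  have hζA : ζ₀ ∈ An κ := ⟨hr.trans ha, hb.trans h2⟩
  have hζB : ζ₀ ∈ ball (0 : ℂ) 1 := An_sub κ hζA
  have hds : DifferentiableOn ℂ (dslope χ ζ₀) (ball 0 1) :=
    (differentiableOn_dslope (isOpen_ball.mem_nhds hζB)).2 hχ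
  have hdne : deriv χ ζ₀ ≠ 0 := Pool.Agent.Helper202.Univ.deriv_ne_zero isOpen_ball hχ hi hζB
  have hne : ∀ ζ ∈ ball (0 : ℂ) 1, dslope χ ζ₀ ζ ≠ 0 := by
    intro ζ hζ
    by_cases e : ζ = ζ₀
    · rw [e, dslope_same]; exact hdne
    · rw [dslope_of_ne _ e, slope_def_field]
      apply div_ne_zero
      · exact sub_ne_zero.2 fun h => e (hi hζ hζB h)
      · exact sub_ne_zero.2 e
  set q : ℂ → ℂ := fun ζ => n ζ / dslope χ ζ₀ ζ with hq
  have hqd : DifferentiableOn ℂ q (An κ) :=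
    hn.div (hds.mono (An_sub κ)) fun ζ hζ => hne ζ (An_sub κ hζ)
  have hdq : DifferentiableOn ℂ (dslope q ζ₀) (An κ) :=
    (differentiableOn_dslope ((isOpen_An κ).mem_nhds hζA)).2 hqd
  have hA := ann_eq h0 hr (hr.trans (ha.trans hb)) (ha.trans (hb.trans h2)) h2 hdq
  have key : ∀ s : ℝ, κ < s → s < 1 → s ≠ ‖ζ₀‖ →
      P n χ s (χ ζ₀) = -(∮ ζ in C(0, s), dslope q ζ₀ ζ) - q ζ₀ * ∮ ζ in C(0, s), (ζ - ζ₀)⁻¹ := by
    intro s hs hs1 hsne
    have hs0 : 0 < s := h0.trans_lt hs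
    have hss : ∀ ζ ∈ sphere (0 : ℂ) s, ζ ≠ ζ₀ := by
      rintro ζ hζ rfl
      rw [mem_sphere_zero_iff_norm] at hζ
      exact hsne hζ.symm
    have e1 : P n χ s (χ ζ₀) = ∮ ζ in C(0, s), (-(dslope q ζ₀ ζ) - q ζ₀ * (ζ - ζ₀)⁻¹) := by
      apply circleIntegral.integral_congr hs0.le
      intro ζ hζ
      have hζA' := sphere_sub hs hs1 hζ
      have hζne := hss ζ hζ
      have h3 : χ ζ - χ ζ₀ ≠ 0 := sub_ne_zero.2 fun h => hζne (hi (An_sub κ hζA') hζB h)
      have h4 : ζ - ζ₀ ≠ 0 := sub_ne_zero.2 hζne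
      have h5 : χ ζ₀ - χ ζ ≠ 0 := by rw [← neg_sub]; exact neg_ne_zero.2 h3
      have e2 : q ζ = n ζ * (ζ - ζ₀) / (χ ζ - χ ζ₀) := by
        simp only [hq]
        rw [dslope_of_ne _ hζne, slope_def_field]
        field_simp
      show n ζ * (χ ζ₀ - χ ζ)⁻¹ = -(dslope q ζ₀ ζ) - q ζ₀ * (ζ - ζ₀)⁻¹
      rw [dslope_of_ne _ hζne, slope_def_field, e2]
      rw [← neg_sub (χ ζ) (χ ζ₀), inv_neg]
      field_simp
      ring
    rw [e1, circleIntegral.integral_sub]
    · rw [circleIntegral.integral_const_mul]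
      congr 1
      have := circleIntegral.integral_const_mul (-1) (dslope q ζ₀) 0 s
      simp only [neg_mul, one_mul] at this
      exact this
    · apply ContinuousOn.circleIntegrable hs0.le
      exact (hdq.continuousOn.mono (sphere_sub hs hs1)).neg
    · apply ContinuousOn.circleIntegrable hs0.le
      apply continuousOn_const.mul
      apply (continuousOn_id.sub continuousOn_const).inv₀
      intro ζ hζ
      exact sub_ne_zero.2 (hss ζ hζ)
  rw [key r hr (ha.trans (hb.trans h2)) ha.ne, key R (hr.trans (ha.trans hb)) h2 hb.ne', hA]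
  have e3 : (∮ ζ in C(0, R), (ζ - ζ₀)⁻¹) = 2 * Real.pi * I :=
    circleIntegral.integral_sub_inv_of_mem_ball (by rw [mem_ball_zero_iff]; exact hb)
  have e4 : (∮ ζ in C(0, r), (ζ - ζ₀)⁻¹) = 0 := by
    have hne' : ∀ z ∈ closedBall (0 : ℂ) r, z - ζ₀ ≠ 0 := by
      intro z hz e
      rw [mem_closedBall_zero_iff, sub_eq_zero.1 e] at hz
      linarith
    apply circleIntegral_eq_zero_of_differentiable_on_off_countable hr0.le countable_empty
    · exact (continuousOn_id.sub continuousOn_const).inv₀ hne'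
    · rintro z ⟨hz, -⟩
      exact (differentiableAt_id.sub_const _).inv (hne' z (ball_subset_closedBall hz))
  have e5 : q ζ₀ = n ζ₀ / deriv χ ζ₀ := by
    simp only [hq]; rw [dslope_same]
  rw [e3, e4, e5]
  ring

lemma interval_swap {F : ℝ → ℝ → ℂ} (hF : Continuous fun x : ℝ × ℝ => F x.1 x.2) :
    ∫ x in (0 : ℝ)..2 * Real.pi, ∫ y in (0 : ℝ)..2 * Real.pi, F x y =
      ∫ y in (0 : ℝ)..2 * Real.pi, ∫ x in (0 : ℝ)..2 * Real.pi, F x y := by
  apply intervalIntegral_intervalIntegral_swap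
  have hpi : (0 : ℝ) ≤ 2 * Real.pi := by positivity
  rw [uIoc_of_le hpi]
  have h1 : IntegrableOn (fun x : ℝ × ℝ => F x.1 x.2)
      (Icc 0 (2 * Real.pi) ×ˢ Icc 0 (2 * Real.pi)) :=
    hF.continuousOn.integrableOn_compact (isCompact_Icc.prod isCompact_Icc)
  exact h1.mono_set (prod_mono Ioc_subset_Icc_self Ioc_subset_Icc_self)

/-- swapping circle integrals -/
lemma circle_swap {F : ℂ → ℂ → ℂ} {ρ ρ' : ℝ}
    (hF : Continuous fun x : ℝ × ℝ => F (circleMap 0 ρ x.1) (circleMap 0 ρ' x.2)) :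
    (∮ t in C(0, ρ), ∮ s in C(0, ρ'), F t s) = ∮ s in C(0, ρ'), ∮ t in C(0, ρ), F t s := by
  have hc : ∀ R : ℝ, Continuous (circleMap 0 R) := fun R => continuous_circleMap 0 R
  simp only [circleIntegral, deriv_circleMap, smul_eq_mul]
  have e1 : ∀ θ : ℝ, (circleMap 0 ρ θ * I) * (∫ φ in (0 : ℝ)..2 * Real.pi, (circleMap 0 ρ' φ * I) *
      F (circleMap 0 ρ θ) (circleMap 0 ρ' φ)) = ∫ φ in (0 : ℝ)..2 * Real.pi, (circleMap 0 ρ θ * I) *
      ((circleMap 0 ρ' φ * I) * F (circleMap 0 ρ θ) (circleMap 0 ρ' φ)) := fun θ =>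
    (intervalIntegral.integral_const_mul _ _).symm
  have e2 : ∀ φ : ℝ, (circleMap 0 ρ' φ * I) * (∫ θ in (0 : ℝ)..2 * Real.pi, (circleMap 0 ρ θ * I) *
      F (circleMap 0 ρ θ) (circleMap 0 ρ' φ)) = ∫ θ in (0 : ℝ)..2 * Real.pi, (circleMap 0 ρ θ * I) *
      ((circleMap 0 ρ' φ * I) * F (circleMap 0 ρ θ) (circleMap 0 ρ' φ)) := by
    intro φ
    rw [← intervalIntegral.integral_const_mul]
    congr 1
    funext θ
    ring
  simp_rw [e1, e2]
  apply interval_swap
  have h1 : Continuous fun x : ℝ × ℝ => circleMap 0 ρ x.1 * I :=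
    ((hc ρ).comp continuous_fst).mul continuous_const
  have h2 : Continuous fun x : ℝ × ℝ => circleMap 0 ρ' x.2 * I :=
    ((hc ρ').comp continuous_snd).mul continuous_const
  exact h1.mul (h2.mul hF)

/-- the integral of the Cauchy integral over a big circle -/
theorem P_int {n χ : ℂ → ℂ} {r R : ℝ} (hr : 0 < r) (hR : 0 < R) (hn : ContinuousOn n (sphere 0 r))
    (hχ : ContinuousOn χ (sphere 0 r)) (hz : ∀ ζ : ℂ, ‖ζ‖ = r → ‖χ ζ‖ < R) :
    (∮ z in C(0, R), P n χ r z) = 2 * Real.pi * I * ∮ ζ in C(0, r), n ζ := by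
  unfold P
  have hcn := circ_cont hr hn
  have hcχ := circ_cont hr hχ
  rw [circle_swap]
  · rw [← circleIntegral.integral_const_mul]
    apply circleIntegral.integral_congr hr.le
    intro ζ hζ
    rw [mem_sphere_zero_iff_norm] at hζ
    show (∮ t in C(0, R), n ζ * (t - χ ζ)⁻¹) = 2 * Real.pi * I * n ζ
    rw [circleIntegral.integral_const_mul,
      circleIntegral.integral_sub_inv_of_mem_ball (by rw [mem_ball_zero_iff]; exact hz ζ hζ)]
    ring
  · apply Continuous.mul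
    · exact hcn.comp continuous_snd
    · apply Continuous.inv₀
      · exact ((continuous_circleMap 0 R).comp continuous_fst).sub (hcχ.comp continuous_snd)
      · rintro ⟨x, y⟩ e
        have h1 := circleMap_mem_sphere (0 : ℂ) hR.le x
        have h2 := circleMap_mem_sphere (0 : ℂ) hr.le y
        rw [mem_sphere_zero_iff_norm] at h1 h2
        have h3 := hz _ h2
        simp only at e
        rw [← sub_eq_zero.1 e, h1] at h3
        exact lt_irrefl _ h3

end Pool.Agent.J4H57.UD
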