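import Pool.Agent.J4H16.UD.Defs
import Pool.Agent.J4H57.UD.Cau

/-!
# Project UD of helper16, job ADD (helper57), part 2: Cauchy's theorem for conformal discs
-/

set_option autoImplicit false
open Set Filter Topology Metric Complex MeasureTheory

namespace Pool.Agent.J4H57.UD

theorem circ_sum {m : ℕ} {f : Fin m → ℂ → ℂ} {R : ℝ} (h : ∀ k, CircleIntegrable (f k) 0 R) :
    (∮ z in C(0, R), ∑ k, f k z) = ∑ k, ∮ z in C(0, R), f k z := by
  unfold circleIntegral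
  rw [← intervalIntegral.integral_finset_sum]
  · congr 1
    funext θ
    rw [Finset.smul_sum]
  · intro k _
    exact (h k).out

/-- Cauchy's theorem for finitely many conformal discs in the unit disc -/
theorem add_disc {N : ℂ → ℂ} {K : Set ℂ} {κ ρ : ℝ} {m : ℕ} {χ : Fin m → ℂ → ℂ} {κ' ρ' : Fin m → ℝ}
    (h0 : 0 < κ) (hρ : κ < ρ) (hρ1 : ρ < 1) (hK : ∀ z ∈ K, ‖z‖ ≤ κ)
    (hN : ∀ z ∈ ball (0 : ℂ) 1, z ∉ K → DifferentiableAt ℂ N z)
    (hd : ∀ k, DifferentiableOn ℂ (χ k) (ball 0 1)) (hi : ∀ k, InjOn (χ k) (ball 0 1))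
    (hm : ∀ k, ∀ ζ ∈ ball (0 : ℂ) 1, χ k ζ ∈ ball (0 : ℂ) 1)
    (hκ0 : ∀ k, 0 < κ' k) (hκρ : ∀ k, κ' k < ρ' k) (hρ'1 : ∀ k, ρ' k < 1)
    (hfree : ∀ k, ∀ ζ : ℂ, κ' k < ‖ζ‖ → ‖ζ‖ < 1 → χ k ζ ∉ K)
    (hdis : ∀ k l, k ≠ l → ∀ ζ ∈ ball (0 : ℂ) 1, ∀ ξ ∈ ball (0 : ℂ) 1, χ k ζ ≠ χ l ξ)
    (hcov : ∀ z ∈ K, ∃ k, ∃ ζ ∈ ball (0 : ℂ) 1, χ k ζ = z) :
    (∮ z in C(0, ρ), N z) = ∑ k, ∮ ζ in C(0, ρ' k), N (χ k ζ) * deriv (χ k) ζ := by
  classical
  set n : Fin m → ℂ → ℂ := fun k ζ => N (χ k ζ) * deriv (χ k) ζ with hn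
  set r2 : Fin m → ℝ := fun k => (1 + ρ' k) / 2 with hr2
  have hρ'0 : ∀ k, 0 < ρ' k := fun k => (hκ0 k).trans (hκρ k)
  have h12 : ∀ k, ρ' k < r2 k := fun k => by
    have := hρ'1 k
    simp only [hr2]; linarith
  have h21 : ∀ k, r2 k < 1 := fun k => by
    have := hρ'1 k
    simp only [hr2]; linarith
  have hκ2 : ∀ k, κ' k < r2 k := fun k => (hκρ k).trans (h12 k)
  have hnd : ∀ k, DifferentiableOn ℂ (n k) (An (κ' k)) := by
    intro k ζ hζ
    have hζB := An_sub _ hζ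
    have hχ : DifferentiableAt ℂ (χ k) ζ := (hd k).differentiableAt (isOpen_ball.mem_nhds hζB)
    have h1 : DifferentiableAt ℂ (fun ζ => N (χ k ζ)) ζ :=
      (hN _ (hm k ζ hζB) (hfree k ζ hζ.1 hζ.2)).comp ζ hχ
    have h2 : DifferentiableAt ℂ (deriv (χ k)) ζ :=
      ((hd k).deriv isOpen_ball).differentiableAt (isOpen_ball.mem_nhds hζB)
    exact (h1.mul h2).differentiableWithinAt
  -- the compact set of the closed discs
  set S : Set ℂ := ⋃ k, χ k '' closedBall 0 (ρ' k) with hS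
  have hsubB : ∀ k, closedBall (0 : ℂ) (ρ' k) ⊆ ball 0 1 := fun k => closedBall_subset_ball (hρ'1 k)
  have hScomp : IsCompact S :=
    isCompact_iUnion fun k => (isCompact_closedBall 0 (ρ' k)).image_of_continuousOn
      ((hd k).continuousOn.mono (hsubB k))
  have hSB : ∀ z ∈ S, ‖z‖ < 1 := by
    intro z hz
    rw [hS, mem_iUnion] at hz
    obtain ⟨k, ζ, hζ, rfl⟩ := hz
    have := hm k ζ (hsubB k hζ)
    rwa [mem_ball_zero_iff] at this
  obtain ⟨R, hR1, hRκ, hRS⟩ : ∃ R : ℝ, R < 1 ∧ κ < R ∧ ∀ z ∈ S, ‖z‖ < R := by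
    have hc2 : IsCompact (S ∪ closedBall 0 κ) := hScomp.union (isCompact_closedBall 0 κ)
    have hne : (S ∪ closedBall (0 : ℂ) κ).Nonempty := ⟨0, Or.inr (mem_closedBall_self h0.le)⟩
    obtain ⟨w, hw, hmax⟩ := hc2.exists_isMaxOn hne continuous_norm.continuousOn
    have hw1 : ‖w‖ < 1 := by
      rcases hw with h | h
      · exact hSB w h
      · rw [mem_closedBall_zero_iff] at h
        linarith
    have hκw : κ ≤ ‖w‖ := by
      have h3 : (κ : ℂ) ∈ S ∪ closedBall (0 : ℂ) κ := by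
        right
        rw [mem_closedBall_zero_iff, norm_real, Real.norm_of_nonneg h0.le]
      have h4 := hmax h3
      simp only [mem_setOf_eq, norm_real, Real.norm_of_nonneg h0.le] at h4
      exact h4
    refine ⟨(1 + ‖w‖) / 2, by linarith, by linarith, ?_⟩
    intro z hz
    have h4 : ‖z‖ ≤ ‖w‖ := hmax (Or.inl hz)
    linarith
  have hR0 : 0 < R := h0.trans hRκ
  -- the function without singularities
  set c : ℂ := 2 * Real.pi * I with hc
  have hc0 : c ≠ 0 := by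
    rw [hc]
    simp [Real.pi_ne_zero]
  set F : ℂ → ℂ := fun z => if z ∈ S then -∑ l, P (n l) (χ l) (r2 l) z else
    c * N z - ∑ l, P (n l) (χ l) (ρ' l) z with hF
  have hnc : ∀ k, ∀ r : ℝ, κ' k < r → r < 1 → ContinuousOn (n k) (sphere 0 r) := fun k r h1 h2 =>
    (hnd k).continuousOn.mono (sphere_sub h1 h2)
  have hχc : ∀ k, ∀ r : ℝ, κ' k < r → r < 1 → ContinuousOn (χ k) (sphere 0 r) := fun k r h1 h2 =>
    (hd k).continuousOn.mono ((sphere_sub h1 h2).trans (An_sub _))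
  have hFd : ∀ z ∈ ball (0 : ℂ) 1, DifferentiableAt ℂ F z := by
    intro z hz
    by_cases hzS : z ∈ S
    · have hzS' := hzS
      rw [hS, mem_iUnion] at hzS'
      obtain ⟨k₀, ζ₀, hζ₀, hζz⟩ := hzS'
      have hζ₀n : ‖ζ₀‖ ≤ ρ' k₀ := by rwa [mem_closedBall_zero_iff] at hζ₀
      have hG : DifferentiableAt ℂ (fun w => -∑ l, P (n l) (χ l) (r2 l) w) z := by
        apply DifferentiableAt.neg
        apply DifferentiableAt.fun_sum
        intro l _
        apply P_diff ((hκ0 l).trans (hκ2 l)) (hnc l _ (hκ2 l) (h21 l)) (hχc l _ (hκ2 l) (h21 l))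
        intro ζ hζ e
        have hζB : ζ ∈ ball (0 : ℂ) 1 := by rw [mem_ball_zero_iff, hζ]; exact h21 l
        by_cases hl : l = k₀
        · subst hl
          have h3 := hi l hζB (hsubB l hζ₀) (e.trans hζz.symm)
          rw [h3] at hζ
          have := h12 l
          linarith
        · exact hdis l k₀ hl ζ hζB ζ₀ (hsubB k₀ hζ₀) (e.trans hζz.symm)
      have hVopen : IsOpen (χ k₀ '' ball 0 (r2 k₀)) :=
        Pool.Agent.Helper202.Univ.isOpen_image isOpen_ball (hd k₀) (hi k₀) isOpen_ball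
          (ball_subset_ball (h21 k₀).le)
      have hzV : z ∈ χ k₀ '' ball 0 (r2 k₀) :=
        ⟨ζ₀, by rw [mem_ball_zero_iff]; exact hζ₀n.trans_lt (h12 k₀), hζz⟩
      refine hG.congr_of_eventuallyEq ?_
      filter_upwards [hVopen.mem_nhds hzV] with w hw
      by_cases hwS : w ∈ S
      · simp only [hF]
        rw [if_pos hwS]
      · simp only [hF]
        rw [if_neg hwS]
        obtain ⟨ξ, hξ, rfl⟩ := hw
        rw [mem_ball_zero_iff] at hξ
        have hξ1 : ρ' k₀ < ‖ξ‖ := by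
          by_contra hcon
          push Not at hcon
          apply hwS
          rw [hS, mem_iUnion]
          exact ⟨k₀, ξ, by rw [mem_closedBall_zero_iff]; exact hcon, rfl⟩
        have hξB : ξ ∈ ball (0 : ℂ) 1 := by rw [mem_ball_zero_iff]; exact hξ.trans (h21 k₀)
        have key : ∀ l, P (n l) (χ l) (ρ' l) (χ k₀ ξ) = P (n l) (χ l) (r2 l) (χ k₀ ξ) +
            (if l = k₀ then c * N (χ k₀ ξ) else 0) := by
          intro l
          by_cases hl : l = k₀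
          · subst hl
            rw [if_pos rfl, P_jump (hκ0 l).le (hκρ l) (h21 l) (hnd l) (hd l) (hi l) hξ1 hξ]
            congr 2
            simp only [hn]
            rw [mul_div_cancel_right₀]
            exact Pool.Agent.Helper202.Univ.deriv_ne_zero isOpen_ball (hd l) (hi l) hξB
          · rw [if_neg hl, add_zero]
            exact (P_eq (hκ0 l).le (hκρ l) (hκ2 l) (hρ'1 l) (h21 l) (hnd l) (hd l)
              (fun ζ _ hζ => hdis l k₀ hl ζ (by rwa [mem_ball_zero_iff]) ξ hξB)).symm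
        rw [Finset.sum_congr rfl fun l _ => key l, Finset.sum_add_distrib, Finset.sum_ite_eq' Finset.univ k₀,
          if_pos (Finset.mem_univ k₀)]
        ring
    · have hzK : z ∉ K := by
        intro hzK
        obtain ⟨k, ζ, hζ, e⟩ := hcov z hzK
        rw [mem_ball_zero_iff] at hζ
        apply hzS
        rw [hS, mem_iUnion]
        refine ⟨k, ζ, ?_, e⟩
        rw [mem_closedBall_zero_iff]
        by_contra hcon
        push Not at hcon
        exact hfree k ζ ((hκρ k).trans hcon) hζ (e ▸ hzK)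
      have hG : DifferentiableAt ℂ (fun w => c * N w - ∑ l, P (n l) (χ l) (ρ' l) w) z := by
        apply ((hN z hz hzK).const_mul c).sub
        apply DifferentiableAt.fun_sum
        intro l _
        apply P_diff (hρ'0 l) (hnc l _ (hκρ l) (hρ'1 l)) (hχc l _ (hκρ l) (hρ'1 l))
        intro ζ hζ e
        apply hzS
        rw [hS, mem_iUnion]
        exact ⟨l, ζ, by rw [mem_closedBall_zero_iff, hζ], e⟩
      refine hG.congr_of_eventuallyEq ?_
      filter_upwards [hScomp.isClosed.isOpen_compl.mem_nhds hzS] with w hw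
      simp only [hF]
      rw [if_neg hw]
  have hRB : closedBall (0 : ℂ) R ⊆ ball 0 1 := closedBall_subset_ball hR1
  have hint : (∮ z in C(0, R), F z) = 0 := by
    apply circleIntegral_eq_zero_of_differentiable_on_off_countable hR0.le countable_empty
    · exact fun z hz => (hFd z (hRB hz)).continuousAt.continuousWithinAt
    · rintro z ⟨hz, -⟩
      exact hFd z (hRB (ball_subset_closedBall hz))
  have hsR : ∀ z ∈ sphere (0 : ℂ) R, z ∉ S := by
    intro z hz hzS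
    rw [mem_sphere_zero_iff_norm] at hz
    have := hRS z hzS
    linarith
  have hNc : ∀ z ∈ An κ, DifferentiableAt ℂ N z := fun z hz =>
    hN z (An_sub κ hz) fun h => absurd (hK z h) (not_le.2 hz.1)
  have hPd : ∀ l, ∀ z ∈ sphere (0 : ℂ) R, DifferentiableAt ℂ (P (n l) (χ l) (ρ' l)) z := by
    intro l z hz
    apply P_diff (hρ'0 l) (hnc l _ (hκρ l) (hρ'1 l)) (hχc l _ (hκρ l) (hρ'1 l))
    intro ζ hζ e
    apply hsR z hz
    rw [hS, mem_iUnion]
    exact ⟨l, ζ, by rw [mem_closedBall_zero_iff, hζ], e⟩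
  have hint2 : (∮ z in C(0, R), F z) = c * (∮ z in C(0, R), N z) - ∑ l, c * ∮ ζ in C(0, ρ' l), n l ζ := by
    have e1 : (∮ z in C(0, R), F z) = ∮ z in C(0, R), (c * N z - ∑ l, P (n l) (χ l) (ρ' l) z) := by
      apply circleIntegral.integral_congr hR0.le
      intro z hz
      simp only [hF]
      rw [if_neg (hsR z hz)]
    have hPi : ∀ l, CircleIntegrable (P (n l) (χ l) (ρ' l)) 0 R := fun l =>
      ContinuousOn.circleIntegrable hR0.le fun z hz => (hPd l z hz).continuousAt.continuousWithinAt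
    rw [e1, circleIntegral.integral_sub, circleIntegral.integral_const_mul, circ_sum hPi]
    · congr 1
      apply Finset.sum_congr rfl
      intro l _
      rw [P_int (hρ'0 l) hR0 (hnc l _ (hκρ l) (hρ'1 l)) (hχc l _ (hκρ l) (hρ'1 l))]
      intro ζ hζ
      apply hRS
      rw [hS, mem_iUnion]
      exact ⟨l, ζ, by rw [mem_closedBall_zero_iff, hζ], rfl⟩
    · apply ContinuousOn.circleIntegrable hR0.le
      exact fun z hz => ((hNc z (sphere_sub hRκ hR1 hz)).const_mul c).continuousAt.continuousWithinAt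
    · apply ContinuousOn.circleIntegrable hR0.le
      intro z hz
      apply ContinuousAt.continuousWithinAt
      apply DifferentiableAt.continuousAt (𝕜 := ℂ)
      exact DifferentiableAt.fun_sum fun l _ => hPd l z hz
  rw [hint, ← Finset.mul_sum, ← mul_sub] at hint2
  have h5 := (mul_eq_zero.1 hint2.symm).resolve_left hc0
  rw [← ann_eq h0.le hρ hRκ hρ1 hR1 (fun z hz => (hNc z hz).differentiableWithinAt)]
  exact sub_eq_zero.1 h5

open Pool.Agent.J4H16.UD Pool.Agent.W746.LD in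
theorem t_ADD : Pool.Agent.J4H16.UD.S_ADD := by
  intro L N Φ κ ρ m χ κ' ρ' hL hN hΦ hρ hρ1 hχ hdis hcov
  obtain ⟨hΦd, hΦi⟩ := hΦ.u
  set ψ : ℂ → ℂ := Function.invFunOn Φ (ball 0 1) with hψ
  have hψΦ : ∀ z ∈ ball (0 : ℂ) 1, ψ (Φ z) = z := fun z hz =>
    Pool.Agent.Helper202.Univ.invFunOn_left hΦi hz
  have hΦψ : ∀ w ∈ Φ '' ball 0 1, Φ (ψ w) = w := fun w hw =>
    Pool.Agent.Helper202.Univ.invFunOn_right hw
  have hψm : ∀ w ∈ Φ '' ball 0 1, ψ w ∈ ball (0 : ℂ) 1 := fun w hw =>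
    Pool.Agent.Helper202.Univ.invFunOn_mem hw
  have hψd : ∀ w ∈ Φ '' ball 0 1, DifferentiableAt ℂ ψ w := fun w hw =>
    Pool.Agent.Helper202.Univ.differentiableAt_inv isOpen_ball hΦd hΦi hw
  have hin : ∀ k, ∀ ζ ∈ ball (0 : ℂ) 1, χ k ζ ∈ Φ '' ball 0 1 := fun k ζ hζ =>
    (hχ k).2.2.2 (mem_image_of_mem _ hζ)
  have hχd : ∀ k, DifferentiableOn ℂ (χ k) (ball 0 1) := fun k => (hχ k).1.u.1
  have hχi : ∀ k, InjOn (χ k) (ball 0 1) := fun k => (hχ k).1.u.2
  have hmain := add_disc (N := fun w => N (Φ w) * deriv Φ w) (K := {w | w ∈ ball (0 : ℂ) 1 ∧ Φ w ∈ L})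
    (κ := κ) (ρ := ρ) (χ := fun k ζ => ψ (χ k ζ)) (κ' := κ') (ρ' := ρ') hΦ.k0 hρ hρ1 ?_ ?_ ?_ ?_ ?_
    (fun k => (hχ k).1.k0) (fun k => (hχ k).2.1) (fun k => (hχ k).2.2.1) ?_ ?_ ?_
  · rw [hmain]
    apply Finset.sum_congr rfl
    intro k _
    apply circleIntegral.integral_congr ((hχ k).1.k0.le.trans (hχ k).2.1.le)
    intro ζ hζ
    have hζB : ζ ∈ ball (0 : ℂ) 1 := An_sub _ (sphere_sub (hχ k).2.1 (hχ k).2.2.1 hζ)
    have hw := hin k ζ hζB
    have h1 : DifferentiableAt ℂ (χ k) ζ := (hχd k).differentiableAt (isOpen_ball.mem_nhds hζB)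
    have h2 : DifferentiableAt ℂ (fun ζ => ψ (χ k ζ)) ζ := (hψd _ hw).comp ζ h1
    have h3 : DifferentiableAt ℂ Φ (ψ (χ k ζ)) :=
      hΦd.differentiableAt (isOpen_ball.mem_nhds (hψm _ hw))
    have h4 : deriv (χ k) ζ = deriv Φ (ψ (χ k ζ)) * deriv (fun ζ => ψ (χ k ζ)) ζ := by
      have h5 : HasDerivAt (fun ζ => Φ (ψ (χ k ζ))) (deriv Φ (ψ (χ k ζ)) * deriv (fun ζ => ψ (χ k ζ)) ζ) ζ :=
        h3.hasDerivAt.comp ζ h2.hasDerivAt
      have h6 : (fun ζ => Φ (ψ (χ k ζ))) =ᶠ[𝓝 ζ] χ k := by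
        filter_upwards [isOpen_ball.mem_nhds hζB] with ξ hξ
        exact hΦψ _ (hin k ξ hξ)
      exact (h5.congr_of_eventuallyEq h6.symm).deriv
    show N (Φ (ψ (χ k ζ))) * deriv Φ (ψ (χ k ζ)) * deriv (fun ζ => ψ (χ k ζ)) ζ = N (χ k ζ) * deriv (χ k) ζ
    rw [h4, hΦψ _ hw]
    ring
  · rintro z ⟨hz, hzL⟩
    by_contra hcon
    push Not at hcon
    rw [mem_ball_zero_iff] at hz
    exact hΦ.free z hcon hz hzL
  · intro z hz hzK
    have h1 : DifferentiableAt ℂ Φ z := hΦd.differentiableAt (isOpen_ball.mem_nhds hz)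
    have h2 : Φ z ∈ Lᶜ := fun h => hzK ⟨hz, h⟩
    have h3 : DifferentiableAt ℂ N (Φ z) := hN.differentiableAt (hL.isOpen_compl.mem_nhds h2)
    exact (h3.comp z h1).mul ((hΦd.deriv isOpen_ball).differentiableAt (isOpen_ball.mem_nhds hz))
  · intro k ζ hζ
    exact ((hψd _ (hin k ζ hζ)).comp ζ ((hχd k).differentiableAt
      (isOpen_ball.mem_nhds hζ))).differentiableWithinAt
  · intro k ζ hζ ξ hξ e
    have e' : ψ (χ k ζ) = ψ (χ k ξ) := e
    have := congrArg Φ e'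
    rw [hΦψ _ (hin k ζ hζ), hΦψ _ (hin k ξ hξ)] at this
    exact hχi k hζ hξ this
  · exact fun k ζ hζ => hψm _ (hin k ζ hζ)
  · intro k ζ h1 h2 hmem
    have hζB : ζ ∈ ball (0 : ℂ) 1 := by rw [mem_ball_zero_iff]; exact h2
    have h3 : Φ (ψ (χ k ζ)) ∈ L := hmem.2
    rw [hΦψ _ (hin k ζ hζB)] at h3
    exact (hχ k).1.free ζ h1 h2 h3
  · intro k l hkl ζ hζ ξ hξ e
    have e' : ψ (χ k ζ) = ψ (χ l ξ) := e
    have := congrArg Φ e'
    rw [hΦψ _ (hin k ζ hζ), hΦψ _ (hin l ξ hξ)] at this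
    exact Set.disjoint_left.1 (hdis k l hkl) (mem_image_of_mem _ hζ) (this ▸ mem_image_of_mem _ hξ)
  · rintro z ⟨hz, hzL⟩
    obtain ⟨k, ζ, hζ, e⟩ := hcov (Φ z) hzL (mem_image_of_mem _ hz)
    refine ⟨k, ζ, hζ, ?_⟩
    show ψ (χ k ζ) = z
    rw [e, hψΦ z hz]

end Pool.Agent.J4H57.UD
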